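import Pool.Agent.Y602.LW.Ch

/-!
# Coherent sequences without thread, characterised by nonreflection

The width of the coherent sequence is only assumed to be `< λ`, and at most `ν` on the given
stationary set `S`, where `ν⁺ < λ`.
-/

set_option autoImplicit false

universe u

open Cardinal Set Order

namespace Pool.Agent.Y602.LW

open Pool.Agent.W877.Sq

/-- `T ∩ acc c` is bounded in `α`. -/
def BddAcc (α : Ordinal.{u}) (c T : Set Ordinal.{u}) : Prop :=
  ∃ b < α, ∀ y ∈ T ∩ acc c, y ≤ b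

variable {lam nu : Cardinal.{u}} {C : Ordinal.{u} → Set (Set Ordinal.{u})}

theorem lim_of {x : Set.Iio lam.ord} (hlim : Order.IsSuccLimit x.1) : Lim x := by
  have h0 : x.1 ≠ 0 := by
    intro h
    rw [h] at hlim
    exact hlim.1 isMin_bot
  rw [Lim, acc_up]
  refine ⟨h0, fun b hb => ?_⟩
  have hb1 : b + 1 < x.1 := hlim.add_one_lt hb
  exact ⟨b + 1, up_mem.2 (Set.mem_univ (⟨b + 1, lt_trans hb1 x.2⟩ : Set.Iio lam.ord)),
    lt_add_one b, hb1⟩

theorem mk_CC_le (x : Set.Iio lam.ord) : #(CC lam C x) ≤ #(C x.1) := by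
  refine mk_le_of_injective (f := fun c : CC lam C x => (⟨up c.1, c.2⟩ : C x.1)) ?_
  intro c d h
  exact Subtype.ext (up_inj (congrArg Subtype.val h))

/-- The local form, for a choice of clubs. -/
theorem choice_form (hreg : lam.IsRegular) (hnu : ℵ₀ ≤ nu) (hnul : Order.succ nu < lam)
    (hC : IsCoherentSeq lam lam C) (hno : ¬ ∃ D, IsThread lam C D) {S : Set Ordinal.{u}}
    (hS : IsStationaryIn S lam.ord) (hw : ∀ β ∈ S, #(C β) ≤ Cardinal.lift.{u + 1} nu)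
    (cc : Ordinal.{u} → Set Ordinal.{u}) (hcc : ∀ α < lam.ord, cc α ∈ C α) :
    ∃ F : Set (Set Ordinal.{u}), #F ≤ Cardinal.lift.{u + 1} nu ∧
      (∀ T ∈ F, T ⊆ S ∧ IsStationaryIn T lam.ord) ∧
      ∀ α < lam.ord, Order.IsSuccLimit α → ∃ T ∈ F, BddAcc α (cc α) T := by
  classical
  have hunc : ℵ₀ < lam := lt_of_le_of_lt hnu ((lt_succ nu).trans hnul)
  have hW := reg_W hreg hunc
  have hT := stat_down hreg hunc hS
  have hnuW : Order.succ (Cardinal.lift.{u + 1} nu) < #(Set.Iio lam.ord) := by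
    rw [mk_W, ← Cardinal.lift_succ, Cardinal.lift_lt]
    exact hnul
  have hsub : ∀ x : Set.Iio lam.ord, cc x.1 ⊆ Set.Iio lam.ord := by
    intro x z hz
    have h1 : z < x.1 := (hC.club x.1 x.2 _ (hcc x.1 x.2)).1 hz
    exact h1.trans x.2
  let c' : Set.Iio lam.ord → Set (Set.Iio lam.ord) := fun x => Subtype.val ⁻¹' (cc x.1)
  have hup : ∀ x, up (c' x) = cc x.1 := fun x => up_pre (hsub x)
  have key : ¬ ∀ 𝒮 : Set (Set (Set.Iio lam.ord)), #𝒮 ≤ Cardinal.lift.{u + 1} nu →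
      (∀ T ∈ 𝒮, T ⊆ (Subtype.val ⁻¹' S : Set (Set.Iio lam.ord)) ∧ IsStationary T) →
      ∃ x, ∀ T ∈ 𝒮, RR (sg c') x T := by
    intro h
    obtain ⟨D, hD⟩ := exists_threadc hW (coh_CC hC) c'
      (fun x _ => by
        change up (c' x) ∈ C x.1
        rw [hup]
        exact hcc x.1 x.2)
      hT (nu := Cardinal.lift.{u + 1} nu)
      (by
        rw [← Cardinal.lift_aleph0.{u + 1, u}]
        exact Cardinal.lift_le.2 hnu)
      hnuW
      (fun y hy _ => (mk_CC_le y).trans (hw y.1 hy))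
      (fun x _ => by
        rw [mk_W]
        exact lt_of_le_of_lt (mk_CC_le x) (hC.width x.1 x.2))
      h
    exact hno ⟨up D, thread_up hreg hunc hC hD⟩
  push Not at key
  obtain ⟨𝒮, h1, h2, h3⟩ := key
  refine ⟨up '' 𝒮, mk_image_le.trans h1, ?_, ?_⟩
  · rintro _ ⟨A, hA, rfl⟩
    refine ⟨?_, stat_up hreg hunc (h2 A hA).2⟩
    rintro _ ⟨z, hz, rfl⟩
    exact (h2 A hA).1 hz
  · intro α hα hlim
    obtain ⟨T, hT1, hT2⟩ := h3 ⟨α, hα⟩
    have hL : Lim (⟨α, hα⟩ : Set.Iio lam.ord) := lim_of hlim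
    unfold RR at hT2
    push Not at hT2
    obtain ⟨c, hc, b, hb, h4⟩ := hT2 hL
    have hc' : c = c' ⟨α, hα⟩ := hc
    subst hc'
    refine ⟨up T, ⟨T, hT1, rfl⟩, b.1, hb, ?_⟩
    rintro _ ⟨⟨y, hy, rfl⟩, hya⟩
    by_contra hlt
    rw [not_le] at hlt
    have hy0 : y.1 ≠ 0 := (lt_of_le_of_lt zero_le hlt).ne'
    have h5 : Acc (c' ⟨α, hα⟩) y := by
      rw [acc_up, hup]
      exact ⟨hy0, (sup_iff hy0).1 hya.2⟩
    have h6 : y.1 < α := by
      have h7 : y.1 < sSup ((fun a => a + 1) '' cc α) := hya.1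
      refine lt_of_lt_of_le h7 (csSup_le' ?_)
      rintro _ ⟨z, hz, rfl⟩
      exact Order.add_one_le_of_lt ((hC.club α hα _ (hcc α hα)).1 hz)
    exact absurd h6 (not_lt.2 (h4 y hy h5 hlt))

/-- Such a family does not reflect simultaneously. -/
theorem not_reflects (hunc : ℵ₀ < lam) {eta : Cardinal.{u}} (hC : IsCoherentSeq lam eta C)
    {F : Set (Set Ordinal.{u})}
    (hF : ∀ α < lam.ord, Order.IsSuccLimit α → ∃ T ∈ F, ∃ c ∈ C α, BddAcc α c T) :
    ¬ ∃ α < lam.ord, ∀ T ∈ F, ReflectsAt T α := by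
  rintro ⟨α, hα, h⟩
  obtain ⟨T0, hT0, -⟩ := hF Ordinal.omega0 (by
    rw [← Cardinal.ord_aleph0]
    exact ord_lt_ord.2 hunc) Ordinal.isSuccLimit_omega0
  have hcof := (h T0 hT0).1
  have hlim : Order.IsSuccLimit α := by
    rw [← Ordinal.aleph0_le_cof]
    exact hcof.le
  obtain ⟨T, hT, c, hc, b, hb, hbd⟩ := hF α hα hlim
  have hcl := limits_club (hC.club α hα c hc) hcof hb
  obtain ⟨y, ⟨hyT, hyα⟩, h1, h2, h3⟩ := (h T hT).2.2 _ hcl
  have hy0 : y ≠ 0 := (lt_of_le_of_lt zero_le h1).ne'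
  have hya : y ∈ acc c :=
    mem_acc_of (hC.club α hα c hc).1 hy0 ((hC.club α hα c hc).2.1 y h2) h3
  exact absurd (hbd y ⟨hyT, hya⟩) (not_le.2 h1)

/-- Sequences of width `< κ`. -/
theorem square_form {kappa : Cardinal.{u}} (hkappa : ℵ₀ < kappa) (hkl : kappa < lam)
    (hreg : lam.IsRegular) (hC : IsCoherentSeq lam kappa C) (hno : ¬ ∃ D, IsThread lam C D)
    {S : Set Ordinal.{u}} (hS : IsStationaryIn S lam.ord)
    (cc : Ordinal.{u} → Set Ordinal.{u}) (hcc : ∀ α < lam.ord, cc α ∈ C α) :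
    ∃ nu < kappa, ℵ₀ ≤ nu ∧ ∃ F : Set (Set Ordinal.{u}), #F ≤ Cardinal.lift.{u + 1} nu ∧
      (∀ T ∈ F, T ⊆ S ∧ IsStationaryIn T lam.ord) ∧
      ∀ α < lam.ord, Order.IsSuccLimit α → ∃ T ∈ F, BddAcc α (cc α) T := by
  classical
  have hunc : ℵ₀ < lam := hkappa.trans hkl
  have hW := reg_W hreg hunc
  have hCl : IsCoherentSeq lam lam C := ⟨hC.nonempty, hC.club,
    fun α hα => (hC.width α hα).trans (Cardinal.lift_lt.2 hkl), hC.coherent⟩
  -- pigeonhole on the number of clubs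
  let T : Set.Iio kappa → Set (Set.Iio lam.ord) := fun m =>
    {x | x.1 ∈ S ∧ #(C x.1) = Cardinal.lift.{u + 1} m.1}
  have hcov : (Subtype.val ⁻¹' S : Set (Set.Iio lam.ord)) ⊆ ⋃ m, T m := by
    intro x hx
    have hw := hC.width x.1 x.2
    obtain ⟨m, hm⟩ := Cardinal.mem_range_lift_of_le hw.le
    refine Set.mem_iUnion.2 ⟨⟨m, ?_⟩, hx, hm.symm⟩
    rw [← hm, Cardinal.lift_lt] at hw
    exact hw
  have hkc : #(Set.Iio kappa) < #(Set.Iio lam.ord) := by
    have h1 : #(Set.Iio kappa) ≤ #(Set.Iio kappa.ord) := by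
      refine mk_le_of_injective
        (f := fun m : Set.Iio kappa => (⟨m.1.ord, ord_lt_ord.2 m.2⟩ : Set.Iio kappa.ord)) ?_
      intro m n h
      exact Subtype.ext (ord_injective (congrArg Subtype.val h))
    refine lt_of_le_of_lt h1 ?_
    rw [Cardinal.mk_Iio_ordinal, card_ord, mk_W, Cardinal.lift_lt]
    exact hkl
  obtain ⟨m, hm⟩ := exists_stat hW hkc T (stat_down hreg hunc hS) hcov
  have hS' := stat_up hreg hunc hm
  have hm1 : m.1 < kappa := m.2
  refine ⟨max m.1 ℵ₀, max_lt hm1 hkappa, le_max_right _ _, ?_⟩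
  obtain ⟨F, h1, h2, h3⟩ := choice_form (nu := max m.1 ℵ₀) hreg (le_max_right _ _)
    (lt_of_le_of_lt (succ_le_of_lt (max_lt hm1 hkappa)) hkl) hCl hno hS' (by
      rintro _ ⟨x, hx, rfl⟩
      rw [hx.2]
      exact Cardinal.lift_le.2 (le_max_left _ _)) cc hcc
  refine ⟨F, h1, fun A hA => ⟨(h2 A hA).1.trans ?_, (h2 A hA).2⟩, h3⟩
  rintro _ ⟨x, hx, rfl⟩
  exact hx.1

/-- If the width is at most `ν` everywhere, one family works for all clubs. -/
theorem all_clubs (hreg : lam.IsRegular) (hnu : ℵ₀ ≤ nu) (hnul : Order.succ nu < lam)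
    (hC : IsCoherentSeq lam (Order.succ nu) C) (hno : ¬ ∃ D, IsThread lam C D)
    {S : Set Ordinal.{u}} (hS : IsStationaryIn S lam.ord) :
    ∃ F : Set (Set Ordinal.{u}), #F ≤ Cardinal.lift.{u + 1} nu ∧
      (∀ T ∈ F, T ⊆ S ∧ IsStationaryIn T lam.ord) ∧
      ∀ α < lam.ord, Order.IsSuccLimit α → ∀ c ∈ C α, ∃ T ∈ F, BddAcc α c T := by
  classical
  have hwid : ∀ α < lam.ord, #(C α) ≤ Cardinal.lift.{u + 1} nu := by
    intro α hα
    have h1 := hC.width α hα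
    rw [Cardinal.lift_succ] at h1
    exact Order.lt_succ_iff.1 h1
  have hCl : IsCoherentSeq lam lam C := ⟨hC.nonempty, hC.club,
    fun α hα => (hC.width α hα).trans (Cardinal.lift_lt.2 hnul), hC.coherent⟩
  obtain ⟨I, hI⟩ : ∃ I : Type (u + 1), #I = Cardinal.lift.{u + 1} nu :=
    ⟨(Cardinal.lift.{u + 1} nu).out, Cardinal.mk_out _⟩
  have hg : ∀ α : Ordinal.{u}, ∃ g : I → Set Ordinal.{u}, α < lam.ord →
      (∀ i, g i ∈ C α) ∧ ∀ c ∈ C α, ∃ i, g i = c := by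
    intro α
    by_cases hα : α < lam.ord
    · have h1 : #(C α) ≤ #I := by
        rw [hI]
        exact hwid α hα
      obtain ⟨e⟩ := Cardinal.le_def _ _ |>.1 h1
      have hne : Nonempty (C α) := (hC.nonempty α hα).to_subtype
      refine ⟨fun i => (Function.invFun e i).1, fun _ => ⟨fun i => (Function.invFun e i).2,
        fun c hc => ?_⟩⟩
      obtain ⟨i, hi⟩ := Function.invFun_surjective e.injective ⟨c, hc⟩
      exact ⟨i, congrArg Subtype.val hi⟩
    · exact ⟨fun _ => ∅, fun h => absurd h hα⟩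
  choose g hg using hg
  have hF := fun i : I => choice_form hreg hnu hnul hCl hno hS
    (fun β hβ => hwid β (hS.1 hβ)) (fun α => g α i) (fun α hα => (hg α hα).1 i)
  choose F hF1 hF2 hF3 using hF
  have hnu' : ℵ₀ ≤ Cardinal.lift.{u + 1} nu := by
    rw [← Cardinal.lift_aleph0.{u + 1, u}]
    exact Cardinal.lift_le.2 hnu
  refine ⟨⋃ i, F i, ?_, ?_, ?_⟩
  · refine (mk_iUnion_le _).trans ?_
    refine (mul_le_mul' hI.le (ciSup_le' hF1)).trans ?_
    rw [mul_eq_self hnu']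
  · intro T hT
    obtain ⟨i, hi⟩ := Set.mem_iUnion.1 hT
    exact hF2 i T hi
  · intro α hα hlim c hc
    obtain ⟨i, rfl⟩ := (hg α hα).2 c hc
    obtain ⟨T, hT, h⟩ := hF3 i α hα hlim
    exact ⟨T, Set.mem_iUnion.2 ⟨i, hT⟩, h⟩

/-- the limit points of an unbounded set form a club -/
theorem acc_club {W : Type u} [LinearOrder W] [WellFoundedLT W] (hW : Reg W) {A : Set W}
    (hA : ∀ b, ∃ z ∈ A, b < z) : IsClub {y : W | Acc A y} := by
  haveI := hW.noMax
  haveI := hW.nonempty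
  apply isClub_of
  · intro b
    choose f hfA hf using hA
    let s : ℕ → W := fun n => f^[n] (f b)
    have hs : ∀ n, s n < s (n + 1) := fun n => by
      simp only [s, Function.iterate_succ_apply']
      exact hf _
    have hsA : ∀ n, s n ∈ A := fun n => by
      cases n with
      | zero => exact hfA _
      | succ n =>
        simp only [s, Function.iterate_succ_apply']
        exact hfA _
    obtain ⟨u, hu⟩ := hW.bound (A := Set.range s) (by
      refine hW.inf_lt ?_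
      rw [le_aleph0_iff_set_countable]
      exact Set.countable_range s)
    obtain ⟨m, hm, hmin⟩ := WellFounded.has_min (wellFounded_lt (α := W))
      {u : W | ∀ n, s n < u} ⟨u, fun n => hu _ ⟨n, rfl⟩⟩
    have hb0 : b < s 0 := hf b
    refine ⟨m, ⟨⟨b, hb0.trans (hm 0)⟩, fun d hd => ?_⟩, hb0.trans (hm 0)⟩
    have : ¬ ∀ n, s n < d := fun h => hmin d h hd
    push Not at this
    obtain ⟨n, hn⟩ := this
    exact ⟨s (n + 1), hsA _, lt_of_le_of_lt hn (hs n), hm _⟩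
  · intro y hy
    refine ⟨hy.1, fun b hb => ?_⟩
    obtain ⟨z, hz, h1, h2⟩ := hy.2 b hb
    obtain ⟨w, hw, h3, h4⟩ := hz.2 b h1
    exact ⟨w, hw, h3, h4.trans h2⟩

/-- The converse: a thread makes every family of fewer than `λ` stationary sets reflect. -/
theorem of_thread (hreg : lam.IsRegular) (hunc : ℵ₀ < lam) {eta : Cardinal.{u}}
    (hC : IsCoherentSeq lam eta C) (hth : ∃ D, IsThread lam C D) {F : Set (Set Ordinal.{u})}
    (hFc : #F < Cardinal.lift.{u + 1} lam) (hF : ∀ T ∈ F, IsStationaryIn T lam.ord) :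
    ¬ ∀ α < lam.ord, Order.IsSuccLimit α → ∀ c ∈ C α, ∃ T ∈ F, BddAcc α c T := by
  classical
  intro hcon
  obtain ⟨D, hD⟩ := hth
  have hW := reg_W hreg hunc
  haveI := hW.noMax
  let D' : Set (Set.Iio lam.ord) := Subtype.val ⁻¹' D
  have hupD : up D' = D := up_pre hD.1.1
  have hDunb : ∀ b : Set.Iio lam.ord, ∃ z ∈ D', b < z := by
    intro b
    obtain ⟨b', hb'⟩ := hW.exists_gt b
    obtain ⟨z, hz, h⟩ := hD.1.2.1 b'.1 b'.2
    exact ⟨⟨z, hD.1.1 hz⟩, hz, lt_of_lt_of_le hb' h⟩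
  have hclub : IsClub {x : Set.Iio lam.ord | Acc D' x} := acc_club hW hDunb
  have hst : IsStationary {x : Set.Iio lam.ord | Acc D' x} := by
    have h1 := stat_inter_club hW (stat_down hreg hunc
      (show IsStationaryIn (Set.Iio lam.ord) lam.ord from ⟨le_rfl, fun c hc => by
        obtain ⟨z, hz, -⟩ := hc.2.1 0 hreg.ord_pos
        exact ⟨z, hc.1 hz, hz⟩⟩)) hclub
    exact h1.mono Set.inter_subset_right
  let A : F → Set (Set.Iio lam.ord) := fun T => (Subtype.val ⁻¹' T.1) ∩ {y | Acc D' y}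
  have hAst : ∀ T : F, IsStationary (A T) := fun T =>
    stat_inter_club hW (stat_down hreg hunc (hF T.1 T.2)) hclub
  have hAunb : ∀ T : F, ∀ b, ∃ z ∈ A T, b < z := by
    intro T b
    obtain ⟨z, hz, h⟩ := hAst T (Ioi_club hW b)
    exact ⟨z, hz, h⟩
  have hcov : {x : Set.Iio lam.ord | Acc D' x} ⊆
      ⋃ T : F, {x | Acc D' x ∧ ¬ Acc (A T) x} := by
    intro x hx
    have hx' := hx
    rw [Set.mem_setOf_eq, acc_up, hupD] at hx'
    have hxa : x.1 ∈ acc D := by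
      refine mem_acc_of hD.1.1 hx'.1 ?_ hx'.2
      obtain ⟨z, hz, h⟩ := hD.1.2.1 x.1 x.2
      exact ⟨z, hz, h⟩
    have hlim : Order.IsSuccLimit x.1 := by
      refine ⟨?_, ?_⟩
      · intro hmin
        exact hx'.1 (by
          have := hmin (zero_le : (0 : Ordinal.{u}) ≤ x.1)
          exact le_antisymm this zero_le)
      · intro b hb
        obtain ⟨z, _, h1, h2⟩ := hx'.2 b hb.1
        exact hb.2 h1 h2
    obtain ⟨T, hT, b, hb, hbd⟩ := hcon x.1 x.2 hlim _ (hD.2 x.1 hxa)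
    refine Set.mem_iUnion.2 ⟨⟨T, hT⟩, hx, ?_⟩
    intro hacc
    obtain ⟨y, ⟨hyT, hyD⟩, h1, h2⟩ := hacc.2 ⟨b, hb.trans x.2⟩ hb
    have hyD' := hyD
    rw [Set.mem_setOf_eq, acc_up, hupD] at hyD'
    have h1' : b < y.1 := h1
    have h2' : y.1 < x.1 := h2
    have hya : y.1 ∈ acc (D ∩ Set.Iio x.1) := by
      refine mem_acc_of (x := x.1) Set.inter_subset_right hyD'.1 ?_ ?_
      · obtain ⟨z, hz, h3, h4⟩ := hx'.2 y.1 h2'
        exact ⟨z, ⟨hz, h4⟩, h3.le⟩
      · intro d hd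
        obtain ⟨z, hz, h3, h4⟩ := hyD'.2 d hd
        exact ⟨z, ⟨hz, h4.trans h2'⟩, h3, h4⟩
    exact absurd (hbd y.1 ⟨hyT, hya⟩) (not_le.2 h1')
  obtain ⟨T, hT⟩ := exists_stat hW (by rw [mk_W]; exact hFc) _ hst hcov
  obtain ⟨x, ⟨_, hx1⟩, hx2⟩ := hT (acc_club hW (hAunb T))
  exact hx1 hx2

end Pool.Agent.Y602.LW
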